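import Pool.Agent.U517.EX.Fin

/-!
# The hyperfinite II₁ factor has an existential embedding in a II₁ factor with property (T)
(MP_02fda4_an, Q1: yes)

There are `II₁` factors `N ⊆ M`, acting on a separable Hilbert space, such that `N` is hyperfinite
(so `N` is isomorphic to the hyperfinite `II₁` factor `R`, by Murray and von Neumann) and has the
Haagerup property, `M` has property (T), and the inclusion `N ⊆ M` is existential, for every
non-principal ultrafilter on `ℕ`.

The example is `L(Λ) ⊆ L(G)` for a discrete group `G` with property (T) and a locally finite
subgroup `Λ` such that the diagonal embedding of `Λ` in its ultrapower extends to `G`.  The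
inclusion, its existentiality, property (T) of `M` and the Haagerup property of `N` are in the
library `Pool/Agent/N571/EX`; the hyperfiniteness of `N` is new (`Pool/Agent/U517/EX`).
-/

namespace Pool.Agent.Results.MP_02fda4_an.HyperfiniteInPropertyT

open Pool.Agent.N571.EX.Plain Pool.Agent.U517.EX

theorem result : ∃ (H : Type) (_ : NormedAddCommGroup H) (_ : InnerProductSpace ℂ H)
    (_ : CompleteSpace H) (_ : TopologicalSpace.SeparableSpace H) (N M : VonNeumannAlgebra H)
    (Ω : H), IsExample N M Ω ∧ Hyperfinite N Ω :=
  final

end Pool.Agent.Results.MP_02fda4_an.HyperfiniteInPropertyT
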